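import Pool.Agent.PHeatA
import Pool.Agent.PHeatB

set_option autoImplicit false
open MeasureTheory Set Filter Topology

namespace Pool.Agent.Results.MP_44d715_an.CoerciveISS

/-- The state space: real `L₂(0,1)`. -/
abbrev X : Type := Lp ℝ 2 (volume.restrict (Set.Ioo (0 : ℝ) 1))

/-- The input space: real `L_∞(ℝ_+)` with the essential supremum norm. -/
abbrev Inp : Type := Lp ℝ ⊤ (volume.restrict (Set.Ici (0 : ℝ)))

/-- The `n`-th normalised Dirichlet eigenfunction `√2 sin((n+1)πz)`, `n = 0, 1, 2, ...`; it satisfies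
`A e_n = -((n+1)π)² e_n`. -/
noncomputable def eig (n : ℕ) (z : ℝ) : ℝ := √2 * Real.sin (((n : ℝ) + 1) * Real.pi * z)

/-- The `n`-th eigen-coefficient `⟨x, e_n⟩` of a state. -/
noncomputable def coef (x : X) (n : ℕ) : ℝ := ∫ z in Set.Ioo (0 : ℝ) 1, x z * eig n z

/-- `φ` is the mild solution map `φ(t,x,u) = T(t)x + ∫₀ᵗ T₋₁(t-s) B u(s) ds` of
`x_t = x_zz` on `(0,1)`, `x(t,0) = 0`, `x(t,1) = u(t)`, written on the orthonormal basis of
eigenfunctions: `T(t)` multiplies the `n`-th coefficient by `exp(-((n+1)π)² t)`, and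
`⟨B u, e_n⟩ = -u e_n'(1) = √2 (n+1) π (-1)^n u`. -/
def IsMild (φ : ℝ → X → Inp → X) : Prop :=
  ∀ t : ℝ, 0 ≤ t → ∀ (x : X) (u : Inp) (n : ℕ),
    coef (φ t x u) n = Real.exp (-(((n : ℝ) + 1) * Real.pi) ^ 2 * t) * coef x n +
      ∫ s in (0 : ℝ)..t, Real.exp (-(((n : ℝ) + 1) * Real.pi) ^ 2 * (t - s)) *
        (√2 * (((n : ℝ) + 1) * Real.pi) * (-1) ^ n * u s)

/-- Comparison functions of class `K` on `[0, ∞)`. -/
def ClassK (σ : ℝ → ℝ) : Prop :=
  ContinuousOn σ (Set.Ici 0) ∧ StrictMonoOn σ (Set.Ici 0) ∧ σ 0 = 0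

/-- Comparison functions of class `K_∞`. -/
def ClassKinf (σ : ℝ → ℝ) : Prop := ClassK σ ∧ Tendsto σ atTop atTop

/-- `V` is a coercive ISS Lyapunov function for the flow `φ`. -/
def CoerciveISSLyapunov (φ : ℝ → X → Inp → X) (V : X → ℝ) : Prop :=
  Continuous V ∧ (∀ x, 0 ≤ V x) ∧
  ∃ ψ₁ ψ₂ α σ : ℝ → ℝ, ClassKinf ψ₁ ∧ ClassKinf ψ₂ ∧ ClassKinf α ∧ ClassK σ ∧
    (∀ x : X, ψ₁ ‖x‖ ≤ V x ∧ V x ≤ ψ₂ ‖x‖) ∧
    ∀ (x : X) (u : Inp),
      limsup (fun h : ℝ => (((V (φ h x u) - V x) / h : ℝ) : EReal)) (𝓝[>] 0) ≤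
        ((-α ‖x‖ + σ ‖u‖ : ℝ) : EReal)

theorem classK_pow {c : ℝ} (hc : 0 < c) : ClassKinf (fun r => c * r ^ 8) := by
  refine ⟨⟨by fun_prop, ?_, by simp⟩, ?_⟩
  · intro a ha b _ hab
    have : a ^ 8 < b ^ 8 := pow_lt_pow_left₀ hab ha (by norm_num)
    simp only
    gcongr
  · exact (tendsto_pow_atTop (by norm_num)).const_mul_atTop hc

open Pool.Agent.PHeat in
/-- A bounded measurable representative of an input. -/
noncomputable def rep (u : Inp) (s : ℝ) : ℝ := if |u s| ≤ ‖u‖ then u s else 0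

open Pool.Agent.PHeat in
theorem rep_nice (u : Inp) : Nice (rep u) ‖u‖ := by
  have hm : Measurable (fun s => u s) := (Lp.stronglyMeasurable u).measurable
  constructor
  · refine Measurable.ite ?_ hm measurable_const
    exact measurableSet_le hm.abs measurable_const
  · intro s
    unfold rep
    split_ifs with h
    · exact h
    · simp

theorem rep_ae (u : Inp) : ∀ᵐ s ∂(volume.restrict (Set.Ici (0 : ℝ))), rep u s = u s := by
  have h := ae_le_eLpNormEssSup (f := fun s => u s) (μ := volume.restrict (Set.Ici (0 : ℝ)))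
  have hfin : eLpNormEssSup (fun s => u s) (volume.restrict (Set.Ici (0 : ℝ))) ≠ ⊤ := by
    have := Lp.eLpNorm_ne_top u
    rw [eLpNorm_exponent_top] at this
    exact this
  have hn : ‖u‖ = (eLpNormEssSup (fun s => u s) (volume.restrict (Set.Ici (0 : ℝ)))).toReal := by
    rw [Lp.norm_def, eLpNorm_exponent_top]
  filter_upwards [h] with s hs
  unfold rep
  rw [if_pos]
  rw [hn, ← Real.norm_eq_abs, ← toReal_enorm]
  exact ENNReal.toReal_mono hfin hs

theorem int_rep (u : Inp) {t : ℝ} (ht : 0 ≤ t) (k : ℝ → ℝ) (b : ℝ) :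
    ∫ s in (0 : ℝ)..t, k s * (b * rep u s) = ∫ s in (0 : ℝ)..t, k s * (b * u s) := by
  have h := rep_ae u
  rw [ae_restrict_iff' measurableSet_Ici] at h
  refine intervalIntegral.integral_congr_ae ?_
  filter_upwards [h] with s hs hs'
  rw [uIoc_of_le ht] at hs'
  rw [hs hs'.1.le]

/-- Main theorem: the boundary controlled heat equation has exactly one mild solution map, and it
admits a coercive ISS Lyapunov function. -/
theorem result :
    ∃ φ : ℝ → X → Inp → X, IsMild φ ∧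
      (∀ φ' : ℝ → X → Inp → X, IsMild φ' → ∀ t : ℝ, 0 ≤ t → ∀ x u, φ' t x u = φ t x u) ∧
      ∃ V : X → ℝ, CoerciveISSLyapunov φ V := by
  set e := Pool.Agent.PHeat.sineBasis with he
  have hcoef : ∀ (x : X) (n : ℕ), coef x n = e.repr x n := fun x n =>
    (Pool.Agent.PHeat.sineBasis_repr x n).symm
  have hmild : IsMild (fun t x u => Pool.Agent.PHeat.phi e t x (rep u)) := by
    intro t ht x u n
    rw [hcoef, hcoef, Pool.Agent.PHeat.phi_repr e ht x (rep_nice u)]
    congr 1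
    exact int_rep u ht _ _
  refine ⟨fun t x u => Pool.Agent.PHeat.phi e t x (rep u), hmild, ?_, Pool.Agent.PHeat.V e, ?_⟩
  · intro φ' hφ' t ht x u
    apply Pool.Agent.PHeat.ext_repr e
    intro n
    rw [← hcoef, ← hcoef, hφ' t ht x u n]
    exact (hmild t ht x u n).symm
  · refine ⟨Pool.Agent.PHeat.V_cont e, fun x => ?_, fun r => 1 * r ^ 8, fun r => 128 * r ^ 8,
      fun r => 8 * r ^ 8, fun r => Pool.Agent.PHeat.CC * r ^ 8, classK_pow one_pos,
      classK_pow (by norm_num), classK_pow (by norm_num),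
      (classK_pow Pool.Agent.PHeat.CC_pos).1, fun x => ⟨?_, Pool.Agent.PHeat.V_le e x⟩, ?_⟩
    · exact le_trans (by positivity) (Pool.Agent.PHeat.le_V e x)
    · simp only [one_mul]
      exact Pool.Agent.PHeat.le_V e x
    · intro x u
      set v := Pool.Agent.PHeat.V e x with hv
      have hlv : ‖x‖ ^ 8 ≤ v := Pool.Agent.PHeat.le_V e x
      set g : ℝ → ℝ := fun h => h⁻¹ * (Real.exp (-8 * h) - 1) * v +
        Pool.Agent.PHeat.CC * ‖u‖ ^ 8 with hg
      have hlim : Tendsto g (𝓝[>] 0) (𝓝 ((-8) * v + Pool.Agent.PHeat.CC * ‖u‖ ^ 8)) := by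
        have hd : HasDerivAt (fun h : ℝ => Real.exp (-8 * h)) (-8) 0 := by
          have h1 : HasDerivAt (fun h : ℝ => -8 * h) (-8) 0 := by
            simpa using (hasDerivAt_id (0 : ℝ)).const_mul (-8 : ℝ)
          have h2 := h1.exp
          simpa using h2
        have h3 := hd.tendsto_slope_zero_right
        simp only [zero_add, mul_zero, Real.exp_zero, smul_eq_mul] at h3
        exact (h3.mul_const v).add_const _
      have hle : ∀ᶠ h : ℝ in 𝓝[>] 0,
          (((Pool.Agent.PHeat.V e (Pool.Agent.PHeat.phi e h x (rep u)) - v) / h : ℝ) : EReal) ≤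
          ((g h : ℝ) : EReal) := by
        filter_upwards [self_mem_nhdsWithin] with h hh
        have hh0 : (0 : ℝ) < h := hh
        rw [EReal.coe_le_coe_iff, div_le_iff₀ hh0]
        have h1 := Pool.Agent.PHeat.V_decay e hh0.le x (rep_nice u)
        have h2 : g h * h = (Real.exp (-8 * h) - 1) * v + Pool.Agent.PHeat.CC * (‖u‖ ^ 8 * h) := by
          rw [hg]
          field_simp
        rw [h2]
        linarith
      have hlim' : Tendsto (fun h => ((g h : ℝ) : EReal)) (𝓝[>] 0)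
          (𝓝 (((-8) * v + Pool.Agent.PHeat.CC * ‖u‖ ^ 8 : ℝ) : EReal)) :=
        (continuous_coe_real_ereal.tendsto _).comp hlim
      calc limsup (fun h : ℝ => (((Pool.Agent.PHeat.V e (Pool.Agent.PHeat.phi e h x (rep u)) - v) / h
            : ℝ) : EReal)) (𝓝[>] 0)
          ≤ limsup (fun h => ((g h : ℝ) : EReal)) (𝓝[>] 0) := limsup_le_limsup hle
        _ = (((-8) * v + Pool.Agent.PHeat.CC * ‖u‖ ^ 8 : ℝ) : EReal) := hlim'.limsup_eq
        _ ≤ _ := by
            rw [EReal.coe_le_coe_iff]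
            linarith

end Pool.Agent.Results.MP_44d715_an.CoerciveISS
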